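import Pool.Agent.Helper17.OD.GoalsMA

/-!
# Packet OD COL: collapse of a bounded set of ordinals
-/

namespace Pool.Agent.Helper17.OD.PkCOL

open Set Pool.Agent.Helper17.OD

theorem thm : G_COL := by
  intro a H hH
  classical
  set g : Iio a ≃o a.ToType := Ordinal.ToType.mk with hg
  let s : Set a.ToType := {x | ((g.symm x : Iio a) : O) ∈ H}
  let r : s → s → Prop := (· < ·)
  let b : O := Ordinal.type r
  have hba : b ≤ a := by
    have h1 : Ordinal.type r ≤ Ordinal.type (α := a.ToType) (· < ·) := by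
      rw [Ordinal.type_le_iff']
      exact ⟨⟨⟨Subtype.val, Subtype.val_injective⟩, Iff.rfl⟩⟩
    rwa [Ordinal.type_toType] at h1
  let f : O → O := fun x => if h : x < b then
    ((g.symm ((Ordinal.enum r ⟨x, h⟩ : s) : a.ToType) : Iio a) : O) else 0
  have hf : ∀ x (h : x < b), f x = ((g.symm ((Ordinal.enum r ⟨x, h⟩ : s) : a.ToType) : Iio a) : O) :=
    fun x h => dif_pos h
  refine ⟨b, f, hba, ?_, ?_⟩
  · intro x hx y hy hxy
    rw [hf x hx, hf y hy]
    have h1 : r (Ordinal.enum r ⟨x, hx⟩) (Ordinal.enum r ⟨y, hy⟩) :=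
      (Ordinal.enum r).map_rel_iff.2 hxy
    exact g.symm.strictMono h1
  · ext y
    constructor
    · rintro ⟨x, hx, rfl⟩
      rw [hf x hx]
      exact (Ordinal.enum r ⟨x, hx⟩ : s).2
    · intro hy
      have hys : g ⟨y, hH hy⟩ ∈ s := by
        show ((g.symm (g ⟨y, hH hy⟩) : Iio a) : O) ∈ H
        rw [OrderIso.symm_apply_apply]
        exact hy
      obtain ⟨⟨x, hx⟩, hxe⟩ := (Ordinal.enum r).surjective ⟨g ⟨y, hH hy⟩, hys⟩
      refine ⟨x, hx, ?_⟩
      rw [hf x hx, hxe]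
      show ((g.symm (g ⟨y, hH hy⟩) : Iio a) : O) = y
      rw [OrderIso.symm_apply_apply]

end Pool.Agent.Helper17.OD.PkCOL
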