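import Pool.Agent.Helper17.OD.GoalsMA

/-!
# Packet OD CON4: the closure of the collapsed hull
-/

namespace Pool.Agent.Helper17.OD.PkCON4

open Set Pool.Agent.Helper17.OD

theorem fst_sub {A : Set O} {s : T} (h : s ∈ D A) : s.fst ∈ D A := by
  cases s with
  | nat n => exact h
  | ord x => exact empty_subset _
  | pr s t => exact fun x hx => h (Or.inl hx)

theorem snd_sub {A : Set O} {s : T} (h : s ∈ D A) : s.snd ∈ D A := by
  cases s with
  | nat n => exact h
  | ord x => exact empty_subset _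
  | pr s t => exact fun x hx => h (Or.inr hx)

theorem thm (hCLA : G_CLA) (hCLB : G_CLB) (hCON1 : G_CON1) (hCON3 : G_CON3)
    (hMAPT : G_MAPT.{2, 2}) : G_CON4 := by
  intro a a' f q A hf hR A₀ hA₀ t
  obtain ⟨hmle, hmfs, -, -, -, -, -, -, hmD, -⟩ := hMAPT O O f (Iio a') hf
  obtain ⟨clA, hullA, -⟩ := hCLA a (av q) A
  have hfa : ∀ x < a', f x < a := fun x hx => hullA (hR ▸ mem_image_of_mem f hx)
  have hDR : ∀ y : T, TCl a (av q) A y ↔ y ∈ D (f '' Iio a') := fun y => by rw [hR]; exact clA y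
  -- leaves and levels
  have hlow : ∀ b < a', ∀ e ∈ D (Iio a'), (e.map f ∈ D (Iio (f b)) ↔ e ∈ D (Iio b)) := by
    intro b hb e he
    show (e.map f).leaves ⊆ Iio (f b) ↔ e.leaves ⊆ Iio b
    rw [hmle e]
    constructor
    · intro h x hx
      exact (hf.lt_iff_lt (he hx) hb).1 (h (mem_image_of_mem f hx))
    · rintro h _ ⟨x, hx, rfl⟩
      exact (hf.lt_iff_lt (he hx) hb).2 (h hx)
  have hDmap : ∀ e ∈ D (Iio a'), e.map f ∈ D (f '' Iio a') := fun e he => (hmD _).2 ⟨e, he, rfl⟩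
  have hDb : ∀ b < a', ∀ e : T, e ∈ D (Iio b) → e ∈ D (Iio a') := fun b hb e he x hx =>
    lt_trans (he hx) hb
  have hin : ∀ b < a', ∀ e ∈ D (Iio b), ∀ (φ : Code) (y : T), IsW (f b) φ (e.map f) y →
      y ∈ D (f '' Iio a') := by
    intro b hb e he φ y hy
    have he' := hDb b hb e he
    rw [← hDR]
    refine TCl.inner (b := f b) (φ := φ) (e := e.map f) ?_ (hfa b hb) ((hDR _).2 (hDmap e he'))
      ((hlow b hb e he').2 he) hy
    rw [hDR]
    intro x hx
    rw [show x = f b from hx]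
    exact mem_image_of_mem f hb
  have htop : ∀ e ∈ D (Iio a'), ∀ (ψ : Code) (y : T), av q ψ (e.map f) → IsW a ψ (e.map f) y →
      y ∈ D (f '' Iio a') := by
    intro e he ψ y hq hy
    rw [← hDR]
    exact TCl.top ((hDR _).2 (hDmap e he)) hq hy
  have c1 := (hCON1 a' f hf hin).2
  have c3 := hCON3 a' a f q hf hfa hin htop
  have hbase : ∀ t : T, TCl a (av q) (f '' A₀) t → TCl a (av q) A t := by
    intro t ht
    refine hCLB a (av q) (av q) (f '' A₀) A (fun _ _ _ h => h) ?_ t ht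
    rintro x ⟨y, hy, rfl⟩ -
    rw [← hR]
    exact mem_image_of_mem f (hA₀ hy)
  constructor
  · intro ht
    induction ht with
    | nat n => exact ⟨.nat n, by simp [D, Tr.leaves], rfl, TCl.nat n⟩
    | base hx _ =>
      obtain ⟨y, hy, rfl⟩ := hx
      refine ⟨.ord y, ?_, rfl, TCl.base hy (hA₀ hy)⟩
      intro z hz
      rw [show z = y from hz]
      exact hA₀ hy
    | pr _ _ ih1 ih2 =>
      obtain ⟨s1, h1, rfl, h2⟩ := ih1
      obtain ⟨s2, h3, rfl, h4⟩ := ih2
      exact ⟨.pr s1 s2, union_subset h1 h3, rfl, TCl.pr h2 h4⟩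
    | fst _ ih =>
      obtain ⟨s, h1, rfl, h2⟩ := ih
      refine ⟨s.fst, ?_, ((hmfs s).1).symm, TCl.fst h2⟩
      exact fst_sub h1
    | snd _ ih =>
      obtain ⟨s, h1, rfl, h2⟩ := ih
      refine ⟨s.snd, ?_, ((hmfs s).2).symm, TCl.snd h2⟩
      exact snd_sub h1
    | inner hb hba he heD hw ih1 ih2 =>
      rename_i b φ e x
      obtain ⟨s, h1, h2, h3⟩ := ih1
      obtain ⟨e0, h4, rfl, h5⟩ := ih2
      cases s with
      | nat n => simp [Tr.map] at h2
      | pr s1 s2 => simp [Tr.map] at h2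
      | ord b0 =>
        have hb0 : f b0 = b := by simpa [Tr.map] using h2
        subst hb0
        have hb0a : b0 < a' := h1 rfl
        have h6 : e0 ∈ D (Iio b0) := (hlow b0 hb0a e0 h4).1 heD
        have h7 := hin b0 hb0a e0 h6 φ x hw
        obtain ⟨x0, h8, rfl⟩ := (hmD x).1 h7
        exact ⟨x0, h8, rfl, TCl.inner h3 hb0a h5 h6 ((c1 b0 hb0a e0 h6 x0 h8 φ).2 hw)⟩
    | top he hQ hw ih =>
      rename_i φ e x
      obtain ⟨e0, h4, rfl, h5⟩ := ih
      have h7 := htop e0 h4 φ x hQ hw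
      obtain ⟨x0, h8, rfl⟩ := (hmD x).1 h7
      exact ⟨x0, h8, rfl, TCl.top h5 hQ ((c3 φ e0 h4 x0 h8 hQ).2 hw)⟩
  · rintro ⟨s, -, rfl, hs⟩
    obtain ⟨clA', hullA', -⟩ := hCLA a' (fun ψ e => av q ψ (e.map f)) A₀
    have hsD : ∀ s, TCl a' (fun ψ e => av q ψ (e.map f)) A₀ s → s ∈ D (Iio a') := fun s hs x hx =>
      hullA' ((clA' s).1 hs hx)
    induction hs with
    | nat n => exact TCl.nat n
    | base hx hxa => exact TCl.base (mem_image_of_mem f hx) (hfa _ hxa)
    | pr _ _ ih1 ih2 => exact TCl.pr ih1 ih2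
    | fst _ ih => rw [← (hmfs _).1]; exact TCl.fst ih
    | snd _ ih => rw [← (hmfs _).2]; exact TCl.snd ih
    | inner hb hba he heD hw ih1 ih2 =>
      rename_i b φ e x
      have h1 : x ∈ D (Iio a') := hDb b hba x hw.1
      exact TCl.inner ih1 (hfa _ hba) ih2 ((hlow _ hba e (hDb b hba e heD)).2 heD)
        ((c1 b hba e heD x h1 φ).1 hw)
    | top he hQ hw ih =>
      rename_i φ e x
      exact TCl.top ih hQ ((c3 φ e (hsD e he) x hw.1 hQ).1 hw)

end Pool.Agent.Helper17.OD.PkCON4
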