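import Pool.Agent.Helper17.OD.GoalsMA

/-!
# Packet OD CUT: a collapsed cut is a cut
-/

namespace Pool.Agent.Helper17.OD.PkCUT

open Set Pool.Agent.Helper17.OD

theorem thm (hHLE : G_HLE.{2}) (hLTO : G_LTO.{2}) (hLTW : G_LTW.{2}) (hMAPT : G_MAPT.{2, 2})
    (hDGE : G_DGE) : G_CUT := by
  intro a' f φ u hf
  obtain ⟨irr, tr, tri⟩ := hLTO O
  obtain ⟨-, -, -, -, -, -, hcode⟩ := hHLE O
  obtain ⟨-, -, -, hmlt, -, -, hmc, -, -, -⟩ := hMAPT O O f (Iio a') hf
  have asym : ∀ s t : T, s.lt t → ¬ t.lt s := fun s t h1 h2 => irr s (tr s t s h1 h2)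
  have hcl : ∀ c : Code, (Tr.ofCode c : T).leaves = ∅ := by
    intro c
    show (c.map Empty.elim : T).leaves = ∅
    induction c with
    | nat n => rfl
    | ord x => exact x.elim
    | pr s t h1 h2 =>
      show (s.map Empty.elim : T).leaves ∪ (t.map Empty.elim : T).leaves = ∅
      rw [h1, h2, Set.union_empty]
  set P : Set T := {e | e ∈ D (Iio a') ∧ ¬ (e.map f).lt u} with hP
  have hne : P.Nonempty := by
    obtain ⟨c, hc⟩ := hcode u
    refine ⟨Tr.ofCode c, ?_, ?_⟩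
    · show (Tr.ofCode c : T).leaves ⊆ Iio a'
      rw [hcl c]
      exact empty_subset _
    · rw [hmc c]
      exact asym _ _ hc
  have hwf := hLTW O
  set u' := hwf.min P hne with hu'
  have hu'P : u' ∈ P := hwf.min_mem P hne
  have hmin : ∀ e ∈ P, ¬ e.lt u' := fun e he => hwf.not_lt_min P he
  have hiff : ∀ e ∈ D (Iio a'), ((e.map f).lt u ↔ e.lt u') := by
    intro e he
    constructor
    · intro h1
      rcases tri e u' with h2 | h2 | h2
      · exact h2
      · rw [h2] at h1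
        exact absurd h1 hu'P.2
      · exact absurd (tr _ _ _ ((hmlt u' hu'P.1 e he).2 h2) h1) hu'P.2
    · intro h1
      by_contra h2
      exact hmin e ⟨he, h2⟩ h1
  refine ⟨u', hu'P.1, ?_, hu'P.2, fun e he h => (hiff e he).2 h, ?_⟩
  · intro ψ e he
    show ((Tr.ofCode ψ).lt φ ∨ (Tr.ofCode ψ = φ ∧ (e.map f).lt u)) ↔
      ((Tr.ofCode ψ).lt φ ∨ (Tr.ofCode ψ = φ ∧ e.lt u'))
    rw [hiff e he]
  · intro hu
    have h1 : u ∈ P := by
      refine ⟨hu, ?_⟩
      rcases hDGE a' f hf u hu with h | h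
      · rw [← h]
        exact irr u
      · exact asym _ _ h
    rcases tri u' u with h2 | h2 | h2
    · exact Or.inr h2
    · exact Or.inl h2
    · exact absurd h2 (hmin u h1)

end Pool.Agent.Helper17.OD.PkCUT
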