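import Pool.Agent.Helper17.OD.GoalsGE

/-! Packet FMO of project OD. -/

namespace Pool.Agent.Helper17.OD.PkFMO

open Set Pool.Agent.Helper17.OD

theorem mono (hPRO : G_PRO) (F : FD) (φ : SF) : ∀ (e : T) (c : ℕ → T),
    ∀ p ∈ F.P F.κ, ∀ q ∈ F.P F.κ, F.Le F.κ q p → Frc F φ p e c → Frc F φ q e c := by
  obtain ⟨hrefl, htr, -, -, -⟩ := hPRO F
  cases φ with
  | eq s t => intro e c p _ q _ _ h; exact h
  | llt s t => intro e c p _ q _ _ h; exact h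
  | isOrd s => intro e c p _ q _ _ h; exact h
  | mem s i => intro e c p _ q _ hqp h r hr hrq; exact h r hr (htr _ _ _ _ hrq hqp)
  | nand φ ψ => intro e c p _ q _ hqp h r hr hrq; exact h r hr (htr _ _ _ _ hrq hqp)
  | exT φ => intro e c p _ q _ hqp h r hr hrq; exact h r hr (htr _ _ _ _ hrq hqp)
  | exS φ => intro e c p _ q _ hqp h r hr hrq; exact h r hr (htr _ _ _ _ hrq hqp)

theorem dns (hPRO : G_PRO) (F : FD) (φ : SF) : ∀ (e : T) (c : ℕ → T),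
    ∀ p ∈ F.P F.κ, (∀ q ∈ F.P F.κ, F.Le F.κ q p → ∃ r ∈ F.P F.κ, F.Le F.κ r q ∧ Frc F φ r e c) →
    Frc F φ p e c := by
  have hm := mono hPRO F
  obtain ⟨hrefl, htr, -, -, -⟩ := hPRO F
  cases φ with
  | eq s t => intro e c p hp h; obtain ⟨r, _, _, h'⟩ := h p hp (hrefl _ _); exact h'
  | llt s t => intro e c p hp h; obtain ⟨r, _, _, h'⟩ := h p hp (hrefl _ _); exact h'
  | isOrd s => intro e c p hp h; obtain ⟨r, _, _, h'⟩ := h p hp (hrefl _ _); exact h'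
  | mem s i =>
    intro e c p hp h q hq hqp
    obtain ⟨r, hr, hrq, h'⟩ := h q hq hqp
    obtain ⟨r', hr', hrr', h''⟩ := h' r hr (hrefl _ _)
    exact ⟨r', hr', htr _ _ _ _ hrr' hrq, h''⟩
  | nand φ ψ =>
    intro e c p hp h q hq hqp hbad
    obtain ⟨r, hr, hrq, h'⟩ := h q hq hqp
    exact h' r hr (hrefl _ _) ⟨hm φ e c q hq r hr hrq hbad.1, hm ψ e c q hq r hr hrq hbad.2⟩
  | exT φ =>
    intro e c p hp h q hq hqp
    obtain ⟨r, hr, hrq, h'⟩ := h q hq hqp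
    obtain ⟨r', hr', hrr', h''⟩ := h' r hr (hrefl _ _)
    exact ⟨r', hr', htr _ _ _ _ hrr' hrq, h''⟩
  | exS φ =>
    intro e c p hp h q hq hqp
    obtain ⟨r, hr, hrq, h'⟩ := h q hq hqp
    obtain ⟨r', hr', hrr', h''⟩ := h' r hr (hrefl _ _)
    exact ⟨r', hr', htr _ _ _ _ hrr' hrq, h''⟩

theorem thm (hPRO : G_PRO) : G_FMO := by
  intro F φ e c
  have hm := mono hPRO F φ e c
  have hd := dns hPRO F φ e c
  obtain ⟨hrefl, htr, -, -, -⟩ := hPRO F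
  refine ⟨hm, hd, ?_, ?_⟩
  · intro p
    by_cases hp : p ∈ F.P F.κ
    · refine Or.inl ?_
      rintro ⟨h1, h2⟩
      exact h2 p hp (hrefl _ _) ⟨h1, h1⟩
    · exact Or.inr hp
  · intro p hp
    by_cases h : ∃ q ∈ F.P F.κ, F.Le F.κ q p ∧ Frc F φ q e c
    · obtain ⟨q, hq, hqp, h'⟩ := h
      exact ⟨q, hq, hqp, Or.inl h'⟩
    · refine ⟨p, hp, hrefl _ _, Or.inr ?_⟩
      intro q hq hqp hbad
      exact h ⟨q, hq, hqp, hbad.1⟩

end Pool.Agent.Helper17.OD.PkFMO
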