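import Pool.Agent.Helper8.OD.SOB

/-! Packet FUN of project OD. -/

namespace Pool.Agent.Helper17.OD.PkFUN

open Set Pool.Agent.Helper17.OD

theorem thm : G_FUN := by
  intro k S S' h A hA f hf
  have := h
  obtain ⟨hbool, hD, hsing, hfin, hsec, hprod, himg, hsep, hcoll⟩ := PkSOB.thm k S S' h
  have hk : ∀ {d : O}, d < k → D (Iio d) ⊆ D (Iio k) := fun hd => D_mono (Iio_subset_Iio hd.le)
  have hmemf : ∀ x y : T, Tr.pr x y ∈ gr A f ↔ x ∈ A ∧ f x = y := by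
    intro x y
    constructor
    · rintro ⟨x', hx', he⟩
      simp only [Tr.pr.injEq] at he
      rw [he.1, he.2]
      exact ⟨hx', rfl⟩
    · rintro ⟨hx, rfl⟩
      exact ⟨x, hx, rfl⟩
  have hSD : SD k S S' (fun e _ => e.fst ∈ A ∧ f e.fst = e.snd) :=
    (SD.mem (ST.pr (ST.fst ST.id) (ST.snd ST.id)) (SV.par hf)).congr
      fun e _ _ _ => hmemf e.fst e.snd
  refine ⟨?_, ?_, ?_, hSD⟩
  · have h1 := himg _ hf (fun e => e.snd) (ST.snd ST.id)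
    have h2 : (fun e : T => e.snd) '' gr A f = f '' A := by
      ext y
      constructor
      · rintro ⟨p, ⟨x, hx, rfl⟩, rfl⟩
        exact ⟨x, hx, rfl⟩
      · rintro ⟨x, hx, rfl⟩
        exact ⟨.pr x (f x), ⟨x, hx, rfl⟩, rfl⟩
    rw [h2] at h1
    exact h1
  · intro B hBA hB
    have h1 := hsep _ hf (fun e => e.fst ∈ B) (SD.mem (ST.fst ST.id) (SV.par hB))
    have h2 : {x | x ∈ gr A f ∧ x.fst ∈ B} = gr B f := by
      ext p
      constructor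
      · rintro ⟨⟨x, hx, rfl⟩, hB⟩
        exact ⟨x, hB, rfl⟩
      · rintro ⟨x, hx, rfl⟩
        exact ⟨⟨x, hBA hx, rfl⟩, hx⟩
    rw [h2] at h1
    exact h1
  · intro g hg
    obtain ⟨d1, hd1, h1⟩ := h.bdd _ (h.sub hf)
    obtain ⟨d2, hd2, h2⟩ := h.bdd _ (h.sub hg)
    refine SOM.of_SD (k := k) (S := S) (max_lt hd1 hd2) ?_ ?_
    · rintro p ⟨x, hx, rfl⟩
      have e1 : Tr.pr x (f x) ∈ D (Iio d1) := h1 ⟨x, hx, rfl⟩
      have e2 : Tr.pr (f x) (g (f x)) ∈ D (Iio d2) := h2 ⟨f x, ⟨x, hx, rfl⟩, rfl⟩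
      exact pr_mem.2 ⟨D_mono (Iio_subset_Iio (le_max_left _ _)) (pr_mem.1 e1).1,
        D_mono (Iio_subset_Iio (le_max_right _ _)) (pr_mem.1 e2).2⟩
    · have h3 : SD k S S' (fun e _ => e = .pr e.fst e.snd ∧ ∃ y ∈ D (Iio k),
          Tr.pr e.fst y ∈ gr A f ∧ Tr.pr y e.snd ∈ gr (f '' A) g) := by
        clear hfin hsec hprod himg hsep hcoll hsing hbool hD
        apply_rules [SD.exT, SD.mem, SD.eq, SD.and, ST.id, ST.fst, ST.snd, ST.pr, SV.par]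
      refine h3.congr fun e _ _ _ => ⟨?_, ?_⟩
      · rintro ⟨he, y, _, hy1, hy2⟩
        obtain ⟨hx, hfx⟩ := (hmemf _ _).1 hy1
        obtain ⟨z, hz, hze⟩ := hy2
        simp only [Tr.pr.injEq] at hze
        refine ⟨e.fst, hx, ?_⟩
        change e = .pr e.fst (g (f e.fst))
        rw [hfx, hze.1, ← hze.2]
        exact he
      · rintro ⟨x, hx, rfl⟩
        refine ⟨rfl, f x, ?_, ⟨x, hx, rfl⟩, ⟨f x, ⟨x, hx, rfl⟩, rfl⟩⟩
        exact hk hd1 (pr_mem.1 (h1 ⟨x, hx, rfl⟩ : Tr.pr x (f x) ∈ D (Iio d1))).2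

end Pool.Agent.Helper17.OD.PkFUN
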