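import Pool.Agent.Helper17.OD.GoalsGE

/-! Packet GNE of project OD. -/

namespace Pool.Agent.Helper17.OD.PkGNE

open Set Pool.Agent.Helper17.OD

theorem countD {A : Set O} (hA : A.Countable) : (D A : Set T).Countable := by
  have key : ∀ n : ℕ, {t : T | t ∈ D A ∧ t.height ≤ n}.Countable := by
    intro n
    induction n with
    | zero =>
      refine ((countable_range (fun n : ℕ => (Tr.nat n : T))).union
        (hA.image (fun a => (Tr.ord a : T)))).mono ?_
      rintro t ⟨ht, hh⟩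
      cases t with
      | nat n => exact Or.inl ⟨n, rfl⟩
      | ord a => exact Or.inr ⟨a, ord_mem.1 ht, rfl⟩
      | pr s t => simp [Tr.height] at hh
    | succ n ih =>
      refine (((countable_range (fun n : ℕ => (Tr.nat n : T))).union
        (hA.image (fun a => (Tr.ord a : T)))).union
        (ih.image2 ih (fun s t => Tr.pr s t))).mono ?_
      rintro t ⟨ht, hh⟩
      cases t with
      | nat n => exact Or.inl (Or.inl ⟨n, rfl⟩)
      | ord a => exact Or.inl (Or.inr ⟨a, ord_mem.1 ht, rfl⟩)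
      | pr s t =>
        have h1 : max s.height t.height + 1 ≤ n + 1 := hh
        have h2 : max s.height t.height ≤ n := by omega
        exact Or.inr ⟨s, ⟨(pr_mem.1 ht).1, (le_max_left _ _).trans h2⟩, t,
          ⟨(pr_mem.1 ht).2, (le_max_right _ _).trans h2⟩, rfl⟩
  refine (countable_iUnion key).mono ?_
  intro t ht
  exact mem_iUnion.2 ⟨t.height, ht, le_rfl⟩

theorem countCon {γ : O} (h : (Iio γ).Countable) : (Con γ).Countable := by
  refine ((countD h).image dec).mono ?_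
  rintro X ⟨c, hc, rfl⟩
  exact ⟨c, hc, rfl⟩

theorem thm (hPRO : G_PRO) : G_GNE := by
  classical
  intro F p hp
  obtain ⟨hrefl, htr, -, -, -⟩ := hPRO F
  have hM : (F.M).Countable := countCon F.g.cnt
  obtain ⟨E, hE⟩ := Set.countable_iff_exists_subset_range.1 hM
  have hstep : ∀ n : ℕ, ∀ x : {x : T // x ∈ F.P F.κ}, ∃ y : {x : T // x ∈ F.P F.κ},
      F.Le F.κ y.1 x.1 ∧ (F.DO (E n) → y.1 ∈ E n) := by
    intro n x
    by_cases hD : F.DO (E n)
    · obtain ⟨q, hq, hqx⟩ := hD.dense x.1 x.2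
      exact ⟨⟨q, hD.sub hq⟩, hqx, fun _ => hq⟩
    · exact ⟨x, hrefl _ _, fun h => absurd h hD⟩
  choose nx hnx1 hnx2 using hstep
  let q : ℕ → {x : T // x ∈ F.P F.κ} := fun n => Nat.rec ⟨p, hp⟩ (fun n x => nx n x) n
  have hq0 : (q 0).1 = p := rfl
  have hqs : ∀ n, q (n + 1) = nx n (q n) := fun n => rfl
  have hmono : ∀ m n : ℕ, m ≤ n → F.Le F.κ (q n).1 (q m).1 := by
    intro m n hmn
    induction n, hmn using Nat.le_induction with
    | base => exact hrefl _ _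
    | succ n _ ih =>
      rw [hqs]
      exact htr _ _ _ _ (hnx1 n (q n)) ih
  refine ⟨{x | x ∈ F.P F.κ ∧ ∃ n, F.Le F.κ (q n).1 x}, ?_, hp, 0, hrefl _ _⟩
  refine ⟨⟨p, hp, 0, hrefl _ _⟩, fun x hx => hx.1, ?_, ?_, ?_⟩
  · rintro x ⟨_, n, hn⟩ y hy hxy
    exact ⟨hy, n, htr _ _ _ _ hn hxy⟩
  · rintro x ⟨_, n, hn⟩ y ⟨_, m, hm⟩
    refine ⟨(q (max n m)).1, ⟨(q (max n m)).2, _, hrefl _ _⟩, ?_, ?_⟩
    · exact htr _ _ _ _ (hmono n _ (le_max_left _ _)) hn
    · exact htr _ _ _ _ (hmono m _ (le_max_right _ _)) hm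
  · intro E' hE'
    obtain ⟨n, rfl⟩ := hE hE'.inM
    exact ⟨(q (n + 1)).1, ⟨(q (n + 1)).2, n + 1, hrefl _ _⟩, by
      rw [hqs]; exact hnx2 n (q n) hE'⟩

end Pool.Agent.Helper17.OD.PkGNE
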