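import Pool.Agent.Helper17.OD.GoalsSO

/-! Packet SOB of project OD. -/

namespace Pool.Agent.Helper17.OD.PkSOB

open Set Pool.Agent.Helper17.OD

variable {k : O} {S S' : Set (Set T)}

theorem bd (h : SOM k S S') : ∀ t : T, t ∈ D (Iio k) → ∃ d < k, t ∈ D (Iio d) := by
  intro t
  induction t with
  | nat n => intro _; exact ⟨Ordinal.omega0, h.omg, nat_mem _ _⟩
  | ord a =>
    intro ha
    have ha' : a < k := ord_mem.1 ha
    exact ⟨Order.succ a, h.lim.succ_lt ha', ord_mem.2 (Order.lt_succ_of_not_isMax (not_isMax a))⟩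
  | pr s t h1 h2 =>
    intro hst
    obtain ⟨hs, ht⟩ := pr_mem.1 hst
    obtain ⟨d1, hd1, hs1⟩ := h1 hs
    obtain ⟨d2, hd2, ht2⟩ := h2 ht
    exact ⟨max d1 d2, max_lt hd1 hd2, pr_mem.2
      ⟨D_mono (Iio_subset_Iio (le_max_left _ _)) hs1,
       D_mono (Iio_subset_Iio (le_max_right _ _)) ht2⟩⟩

theorem thm : G_SOB := by
  intro k S S' h
  have := h
  have hb : ∀ X ∈ S', ∃ d < k, X ⊆ D (Iio d) := fun X hX => h.bdd X (h.sub hX)
  have hk : ∀ {d : O}, d < k → D (Iio d) ⊆ D (Iio k) := fun hd => D_mono (Iio_subset_Iio hd.le)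
  have hun : ∀ X ∈ S', ∀ Y ∈ S', X ∪ Y ∈ S' := by
    intro X hX Y hY
    obtain ⟨d1, hd1, h1⟩ := hb X hX
    obtain ⟨d2, hd2, h2⟩ := hb Y hY
    refine SOM.of_SD (k := k) (S := S) (max_lt hd1 hd2) ?_
      ((SD.mem ST.id (SV.par hX)).or (SD.mem ST.id (SV.par hY)))
    exact union_subset (h1.trans (D_mono (Iio_subset_Iio (le_max_left _ _))))
      (h2.trans (D_mono (Iio_subset_Iio (le_max_right _ _))))
  have hsep : ∀ X ∈ S', ∀ P : T → Prop, SD k S S' (fun e _ => P e) → {x | x ∈ X ∧ P x} ∈ S' := by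
    intro X hX P hP
    obtain ⟨d1, hd1, h1⟩ := hb X hX
    exact SOM.of_SD (k := k) (S := S) hd1 (fun x hx => h1 hx.1)
      ((SD.mem ST.id (SV.par hX)).and hP)
  have hsing : ∀ t ∈ D (Iio k), {t} ∈ S' := by
    intro t ht
    obtain ⟨d, hd, htd⟩ := bd h t ht
    refine SOM.of_SD (k := k) (S := S) hd (fun x hx => ?_) (SD.eq ST.id (ST.const ht))
    rw [mem_singleton_iff] at hx
    rw [hx]
    exact htd
  refine ⟨?_, ?_, hsing, ?_, ?_, ?_, ?_, hsep, ?_⟩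
  · intro X hX Y hY
    refine ⟨hun X hX Y hY, ?_, ?_⟩
    · exact hsep X hX (fun x => x ∈ Y) (SD.mem ST.id (SV.par hY))
    · exact hsep X hX (fun x => x ∉ Y) (SD.mem ST.id (SV.par hY)).not
  · intro d hd
    have h1 := SOM.sep (k := k) (S := S) (S' := S') (P := fun _ => True) SD.const hd
    have h2 : {x : T | x ∈ D (Iio d) ∧ True} = D (Iio d) := by ext x; simp
    rw [h2] at h1
    exact h1
  · intro X hX
    induction X, hX using Set.Finite.induction_on with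
    | empty => intro _; exact h.emp
    | insert _ _ ih =>
      intro hsub
      rw [insert_subset_iff] at hsub
      rw [insert_eq]
      exact hun _ (hsing _ hsub.1) _ (ih hsub.2)
  · intro X hX t ht
    obtain ⟨d1, hd1, h1⟩ := hb X hX
    have h3 : SD k S S' (fun e _ => Tr.pr t e ∈ X) :=
      SD.mem (ST.pr (ST.const ht) ST.id) (SV.par hX)
    exact SOM.of_SD (k := k) (S := S) hd1 (fun x hx => (pr_mem.1 (h1 hx)).2) h3
  · intro X hX Y hY
    obtain ⟨d1, hd1, h1⟩ := hb X hX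
    obtain ⟨d2, hd2, h2⟩ := hb Y hY
    refine SOM.of_SD (k := k) (S := S) (max_lt hd1 hd2) ?_ ?_
    · rintro p ⟨x, hx, y, hy, rfl⟩
      exact pr_mem.2 ⟨D_mono (Iio_subset_Iio (le_max_left _ _)) (h1 hx),
        D_mono (Iio_subset_Iio (le_max_right _ _)) (h2 hy)⟩
    · have h3 : SD k S S' (fun e _ => (e.fst ∈ X ∧ e.snd ∈ Y) ∧ e = .pr e.fst e.snd) :=
        ((SD.mem (ST.fst ST.id) (SV.par hX)).and (SD.mem (ST.snd ST.id) (SV.par hY))).and
          (SD.eq ST.id (ST.pr (ST.fst ST.id) (ST.snd ST.id)))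
      refine h3.congr fun e _ _ _ => ⟨fun hh => ⟨e.fst, hh.1.1, e.snd, hh.1.2, hh.2⟩, ?_⟩
      rintro ⟨x, hx, y, hy, rfl⟩
      exact ⟨⟨hx, hy⟩, rfl⟩
  · intro X hX t ht
    obtain ⟨d1, hd1, h1⟩ := hb X hX
    have ht' := ht
    obtain ⟨c, e0, he0, hc⟩ := ht
    obtain ⟨d2, hd2, h2⟩ := bd h e0 he0
    refine SOM.of_SD (k := k) (S := S) (max_lt hd1 hd2) ?_ ?_
    · rintro p ⟨x, hx, rfl⟩
      rw [← hc]
      exact tval_mem (pr_mem.2 ⟨D_mono (Iio_subset_Iio (le_max_left _ _)) (h1 hx),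
        D_mono (Iio_subset_Iio (le_max_right _ _)) h2⟩)
    · have h3 : SD k S S' (fun e _ => ∃ x ∈ D (Iio k), x ∈ X ∧ t x = e) :=
        SD.exT (P := fun e x _ => x ∈ X ∧ t x = e)
          ((SD.mem (ST.fst ST.id) (SV.par hX)).and
            (SD.eq (ht'.comp (ST.fst ST.id)) (ST.snd ST.id)))
      refine h3.congr fun e _ _ _ => ⟨?_, ?_⟩
      · rintro ⟨x, _, hx, hxe⟩
        exact ⟨x, hx, hxe⟩
      · rintro ⟨x, hx, hxe⟩
        exact ⟨x, hk hd1 (h1 hx), hx, hxe⟩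
  · intro X hX P hP hx
    obtain ⟨d1, hd1, h1⟩ := hb X hX
    obtain ⟨b, hb', hb2⟩ := SOM.bnd (k := k) (S := S) (S' := S') (P := fun x y => x ∈ X → P x y)
      ((SD.mem (ST.snd ST.id) (SV.par hX)).imp hP) hd1 (fun x hxd => by
        by_cases hxX : x ∈ X
        · obtain ⟨y, hy, hPy⟩ := hx x hxX
          exact ⟨y, hy, fun _ => hPy⟩
        · exact ⟨.nat 0, nat_mem _ _, fun hh => absurd hh hxX⟩)
    refine ⟨b, hb', fun x hxX => ?_⟩
    obtain ⟨y, hy, hPy⟩ := hb2 x (h1 hxX)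
    exact ⟨y, hy, hPy hxX⟩

end Pool.Agent.Helper17.OD.PkSOB
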