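import Pool.Agent.Helper17.OD.GoalsGE

/-! Packet SV4 of project OD. -/

namespace Pool.Agent.Helper17.OD.PkSV4

open Set Pool.Agent.Helper17.OD

theorem thm (hENU : G_ENU) (hGX1 : G_GX1) (hGX2 : G_GX2) : G_SV4 := by
  intro F G hG hS ρ hρ
  have hsρ : Order.succ ρ < F.κ := F.g.klim.succ_lt hρ
  obtain ⟨hX, hunb, hlow, hthin⟩ := hGX1 F G hG (Order.succ ρ) hsρ
  have hord : ∀ t ∈ Gx G (Order.succ ρ), t.IsOrd := by
    rintro t ⟨x, rfl, _⟩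
    trivial
  refine ⟨Gx G (Order.succ ρ), hX, hord, ?_, hthin⟩
  obtain ⟨b, f, hb, hf, hmem, hgr⟩ := hENU F.κ _ _ hS _ hX hord
  have hηb : F.η ρ ≤ b := by
    by_contra hlt
    rw [not_le] at hlt
    obtain ⟨b', hb', hb'2⟩ := hGX2 F G hG ρ hρ b hlt f hgr (fun x hx => by
      have h1 := hlow (.ord (f x)) ((hmem _).2 ⟨x, hx, rfl⟩)
      exact ord_mem.1 h1)
    obtain ⟨x, hx1, _, hx3⟩ := hunb b' hb'
    obtain ⟨a, ha, hxa⟩ := (hmem _).1 hx3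
    have : x = f a := by simpa using hxa
    have h2 := hb'2 a ha
    rw [← this] at h2
    exact absurd h2 (not_lt.2 hx1)
  have hρb : ρ < b := lt_of_lt_of_le (F.e.low ρ hρ).2 hηb
  exact ⟨f, hf.mono (Iio_subset_Iio hρb.le), fun x hx => (hmem _).2 ⟨x, hx.trans hρb, rfl⟩⟩

end Pool.Agent.Helper17.OD.PkSV4
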