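import Pool.Agent.Helper17.OD.GoalsGE

/-! Packet TRL of project OD: the truth lemma. -/

namespace Pool.Agent.Helper17.OD.PkTRL

open Set Pool.Agent.Helper17.OD

/-- The forcing relation depends on finitely many set variables. -/
theorem fin (F : FD) : ∀ φ : SF, ∃ n : ℕ, ∀ (p e : T) (c c' : ℕ → T), (∀ i < n, c i = c' i) →
    (Frc F φ p e c ↔ Frc F φ p e c') := by
  intro φ
  induction φ with
  | eq s t => exact ⟨0, fun p e c c' _ => Iff.rfl⟩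
  | llt s t => exact ⟨0, fun p e c c' _ => Iff.rfl⟩
  | isOrd s => exact ⟨0, fun p e c c' _ => Iff.rfl⟩
  | mem s i =>
    refine ⟨i + 1, fun p e c c' h => ?_⟩
    simp only [Frc, h i (Nat.lt_succ_self i)]
  | nand φ ψ h1 h2 =>
    obtain ⟨n1, h1⟩ := h1
    obtain ⟨n2, h2⟩ := h2
    refine ⟨max n1 n2, fun p e c c' h => ?_⟩
    simp only [Frc, fun q => h1 q e c c' (fun i hi => h i (lt_of_lt_of_le hi (le_max_left _ _))),
      fun q => h2 q e c c' (fun i hi => h i (lt_of_lt_of_le hi (le_max_right _ _)))]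
  | exT φ h1 =>
    obtain ⟨n1, h1⟩ := h1
    refine ⟨n1, fun p e c c' h => ?_⟩
    simp only [Frc, fun q x => h1 q (.pr x e) c c' h]
  | exS φ h1 =>
    obtain ⟨n1, h1⟩ := h1
    refine ⟨n1, fun p e c c' h => ?_⟩
    have h2 : ∀ d : T, ∀ i < n1, tcons d c i = tcons d c' i := by
      intro d i hi
      cases i with
      | zero => rfl
      | succ i => exact h i (by omega)
    simp only [Frc, fun q d => h1 q e (tcons d c) (tcons d c') (h2 d)]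

/-- Lists. -/
theorem lst {A : Set O} : ∀ (n : ℕ) (c : ℕ → T), (∀ i, c i ∈ D A) →
    ∃ K ∈ D A, ∀ i < n, nth K i = c i := by
  intro n
  induction n with
  | zero => intro c _; exact ⟨.nat 0, nat_mem _ _, fun i hi => absurd hi (Nat.not_lt_zero i)⟩
  | succ n ih =>
    intro c hc
    obtain ⟨K, hK, h⟩ := ih (fun i => c (i + 1)) (fun i => hc (i + 1))
    refine ⟨.pr (c 0) K, pr_mem.2 ⟨hc 0, hK⟩, ?_⟩
    intro i hi
    cases i with
    | zero => rfl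
    | succ i => exact h i (by omega)

theorem nth_pr (d K : T) : nth (.pr d K) = tcons d (nth K) := by
  funext i
  cases i <;> rfl

theorem thm (hPRO : G_PRO) (hPIM : G_PIM) (hFMO : G_FMO) (hFSD : G_FSD) (hGNF : G_GNF) :
    G_TRL := by
  intro F G hG
  have hsom : SOM F.γ F.M F.M := F.g.m1
  obtain ⟨hrefl, htr, -, -, -⟩ := hPRO F
  obtain ⟨-, -, hdn, -⟩ := hGNF F G hG
  obtain ⟨hNm, hFr⟩ := hFSD F
  obtain ⟨hPs, hLs, hPM⟩ := hPIM F
  have hκγ : D (Iio F.κ) ⊆ (D (Iio F.γ) : Set T) := D_mono (Iio_subset_Iio F.g.kg.le)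
  have hmono : ∀ (φ : SF) (e : T) (c : ℕ → T), ∀ p ∈ F.P F.κ, ∀ q ∈ F.P F.κ, F.Le F.κ q p →
      Frc F φ p e c → Frc F φ q e c := fun φ e c => (hFMO F φ e c).1
  -- members of `M` are bounded
  obtain ⟨dP, hdP, hPd⟩ := hsom.bdd _ (hPM F.κ le_rfl)
  have hinM : ∀ Q : T → Prop, SD F.γ F.M F.M (fun r _ => Q r) →
      {r | r ∈ F.P F.κ ∧ Q r} ∈ F.M := by
    intro Q hQ
    refine SOM.of_SD (k := F.γ) (S := F.M) hdP (fun r hr => hPd hr.1) ?_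
    exact (SD.mem ST.id (SV.par (hPM F.κ le_rfl))).and hQ
  -- the forcing relation with fixed environment
  have hFe : ∀ (φ : SF) (n : ℕ) (K e : T) (c : ℕ → T), K ∈ D (Iio F.κ) → e ∈ D (Iio F.κ) →
      (∀ i < n, nth K i = c i) →
      (∀ (p e : T) (c c' : ℕ → T), (∀ i < n, c i = c' i) → (Frc F φ p e c ↔ Frc F φ p e c')) →
      SD F.γ F.M F.M (fun r _ => r ∈ F.P F.κ ∧ Frc F φ r e c) := by
    intro φ n K e c hK he hKc hn
    have h1 := (hFr φ).sub (ST.pr ST.id (ST.pr (ST.const (hκγ he)) (ST.const (hκγ hK))))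
    refine h1.congr fun r _ _ _ => ?_
    simp only [Tr.fst, Tr.snd]
    rw [hn r e (nth K) c hKc]
    tauto
  have hnand : ∀ (p : T) (φ ψ : SF) (e : T) (c : ℕ → T), p ∈ F.P F.κ →
      ∃ r ∈ F.P F.κ, F.Le F.κ r p ∧ (Frc F (.nand φ ψ) r e c ∨ (Frc F φ r e c ∧ Frc F ψ r e c)) := by
    intro p φ ψ e c hp
    by_cases h : ∃ r ∈ F.P F.κ, F.Le F.κ r p ∧ (Frc F φ r e c ∧ Frc F ψ r e c)
    · obtain ⟨r, hr, hrp, h⟩ := h
      exact ⟨r, hr, hrp, Or.inr h⟩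
    · refine ⟨p, hp, hrefl _ _, Or.inl ?_⟩
      intro q hq hqp hbad
      exact h ⟨q, hq, hqp, hbad⟩
  intro φ
  induction φ with
  | eq s t =>
    intro e he c hc
    obtain ⟨p, hp⟩ := hG.ne
    exact ⟨fun h => ⟨p, hp, h⟩, fun ⟨_, _, h⟩ => h⟩
  | llt s t =>
    intro e he c hc
    obtain ⟨p, hp⟩ := hG.ne
    exact ⟨fun h => ⟨p, hp, h⟩, fun ⟨_, _, h⟩ => h⟩
  | isOrd s =>
    intro e he c hc
    obtain ⟨p, hp⟩ := hG.ne
    exact ⟨fun h => ⟨p, hp, h⟩, fun ⟨_, _, h⟩ => h⟩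
  | mem s i =>
    intro e he c hc
    constructor
    · rintro ⟨p, hp, hpy⟩
      refine ⟨p, hp, ?_⟩
      intro q hq hqp
      exact ⟨q, hq, hrefl _ _, p, hG.sub hp, hqp, hpy⟩
    · rintro ⟨p, hp, hF⟩
      have hdec : dec (c i) ∈ F.M := ⟨c i, hκγ (hc i).1, rfl⟩
      have hy : tval s e ∈ D (Iio F.γ) := tval_mem (hκγ he)
      have hLe : SD F.γ F.M F.M (fun z _ => z.fst ∈ D (Iio F.κ) ∧ z.snd ∈ D (Iio F.κ) ∧
          F.Le F.κ z.fst z.snd) := by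
        have h1 := hLs.sub (ST.pr (ST.ordc F.g.kg) ST.id)
        refine h1.congr fun z _ _ _ => ⟨?_, ?_⟩
        · rintro ⟨j, _, hj1, hj2, hj3, hj4⟩
          simp only [Tr.fst, Tr.snd, Tr.ord.injEq] at hj1 hj2 hj3 hj4
          rw [← hj1] at hj4
          exact ⟨hj2, hj3, hj4⟩
        · rintro ⟨h1, h2, h3⟩
          exact ⟨F.κ, le_rfl, rfl, h1, h2, h3⟩
      have hE : {r | r ∈ F.P F.κ ∧ ∃ u ∈ D (Iio F.γ), (u ∈ F.P F.κ ∧
          Tr.pr (tval s e) u ∈ dec (c i)) ∧ r ∈ D (Iio F.κ) ∧ u ∈ D (Iio F.κ) ∧ F.Le F.κ r u} ∈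
          F.M := by
        refine hinM _ ?_
        refine SD.exT (P := fun r u _ => (u ∈ F.P F.κ ∧
          Tr.pr (tval s e) u ∈ dec (c i)) ∧ r ∈ D (Iio F.κ) ∧ u ∈ D (Iio F.κ) ∧ F.Le F.κ r u) ?_
        refine SD.and (SD.and (SD.mem (ST.fst ST.id) (SV.par (hPM F.κ le_rfl)))
          (SD.mem (ST.pr (ST.const hy) (ST.fst ST.id)) (SV.par hdec))) ?_
        exact hLe.sub (ST.pr (ST.snd ST.id) (ST.fst ST.id))
      have hPk : ∀ q ∈ F.P F.κ, q ∈ D (Iio F.κ) := by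
        intro q hq
        have h1 : q ∈ (PLr F.M F.w F.κ F.η F.κ).1 := hq
        rw [PLr, WellFounded.fix_eq] at h1
        exact h1.low
      obtain ⟨r, hrE, hrG⟩ := hdn p hp _ hE (by
        intro q hq hqp
        obtain ⟨r, hr, hrq, u, hu, hru, hyu⟩ := hF q hq hqp
        exact ⟨r, ⟨hr, u, hκγ (hPk u hu), ⟨hu, hyu⟩, hPk r hr, hPk u hu, hru⟩, hr, hrq⟩)
      obtain ⟨_, u, _, ⟨hu, hyu⟩, _, _, hru⟩ := hrE
      exact ⟨u, hG.up r hrG u hu hru, hyu⟩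
  | nand φ ψ h1 h2 =>
    intro e he c hc
    constructor
    · intro hS
      obtain ⟨p, hp⟩ := hG.ne
      obtain ⟨n1, hn1⟩ := fin F φ
      obtain ⟨n2, hn2⟩ := fin F ψ
      obtain ⟨n3, hn3⟩ := fin F (.nand φ ψ)
      obtain ⟨K, hK, hKc⟩ := lst (max n1 (max n2 n3)) c (fun i => (hc i).1)
      have hE : {r | r ∈ F.P F.κ ∧ ((r ∈ F.P F.κ ∧ Frc F (.nand φ ψ) r e c) ∨
          ((r ∈ F.P F.κ ∧ Frc F φ r e c) ∧ (r ∈ F.P F.κ ∧ Frc F ψ r e c)))} ∈ F.M := by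
        refine hinM _ ?_
        exact (hFe _ n3 K e c hK he (fun i hi => hKc i (lt_of_lt_of_le hi
            ((le_max_right _ _).trans (le_max_right _ _)))) hn3).or
          ((hFe _ n1 K e c hK he (fun i hi => hKc i (lt_of_lt_of_le hi (le_max_left _ _))) hn1).and
          (hFe _ n2 K e c hK he (fun i hi => hKc i (lt_of_lt_of_le hi
            ((le_max_left _ _).trans (le_max_right _ _)))) hn2))
      obtain ⟨r, hrE, hrG⟩ := hdn p hp _ hE (by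
        intro q hq _
        obtain ⟨r, hr, hrq, h⟩ := hnand q φ ψ e c hq
        refine ⟨r, ⟨hr, ?_⟩, hr, hrq⟩
        rcases h with h | h
        · exact Or.inl ⟨hr, h⟩
        · exact Or.inr ⟨⟨hr, h.1⟩, ⟨hr, h.2⟩⟩)
      rcases hrE.2 with h | h
      · exact ⟨r, hrG, h.2⟩
      · exact absurd ⟨(h1 e he c hc).2 ⟨r, hrG, h.1.2⟩, (h2 e he c hc).2 ⟨r, hrG, h.2.2⟩⟩ hS
    · rintro ⟨p, hp, hF⟩ ⟨hS1, hS2⟩
      obtain ⟨q1, hq1, hF1⟩ := (h1 e he c hc).1 hS1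
      obtain ⟨q2, hq2, hF2⟩ := (h2 e he c hc).1 hS2
      obtain ⟨r, hr, hr1, hr2⟩ := hG.dir q1 hq1 q2 hq2
      obtain ⟨u, hu, hur, hup⟩ := hG.dir r hr p hp
      have hu1 := hmono φ e c q1 (hG.sub hq1) u (hG.sub hu) (htr _ _ _ _ hur hr1) hF1
      have hu2 := hmono ψ e c q2 (hG.sub hq2) u (hG.sub hu) (htr _ _ _ _ hur hr2) hF2
      exact hF u (hG.sub hu) hup ⟨hu1, hu2⟩
  | exT φ h1 =>
    intro e he c hc
    constructor
    · rintro ⟨x, hx, hS⟩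
      obtain ⟨p, hp, hF⟩ := (h1 (.pr x e) (pr_mem.2 ⟨hx, he⟩) c hc).1 hS
      refine ⟨p, hp, ?_⟩
      intro q hq hqp
      exact ⟨q, hq, hrefl _ _, x, hx, hmono φ _ c p (hG.sub hp) q hq hqp hF⟩
    · rintro ⟨p, hp, hF⟩
      obtain ⟨n1, hn1⟩ := fin F φ
      obtain ⟨K, hK, hKc⟩ := lst n1 c (fun i => (hc i).1)
      have hE : {r | r ∈ F.P F.κ ∧ ∃ x ∈ D (Iio F.γ), r ∈ F.P F.κ ∧ Tr.pr x e ∈ D (Iio F.κ) ∧
          K ∈ D (Iio F.κ) ∧ Frc F φ r (.pr x e) (nth K)} ∈ F.M := by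
        refine hinM _ ?_
        refine SD.exT (P := fun r x _ => r ∈ F.P F.κ ∧ Tr.pr x e ∈ D (Iio F.κ) ∧
          K ∈ D (Iio F.κ) ∧ Frc F φ r (.pr x e) (nth K)) ?_
        exact (hFr φ).sub (ST.pr (ST.snd ST.id)
          (ST.pr (ST.pr (ST.fst ST.id) (ST.const (hκγ he))) (ST.const (hκγ hK))))
      obtain ⟨r, hrE, hrG⟩ := hdn p hp _ hE (by
        intro q hq hqp
        obtain ⟨r, hr, hrq, x, hx, h⟩ := hF q hq hqp
        exact ⟨r, ⟨hr, x, hκγ hx, hr, pr_mem.2 ⟨hx, he⟩, hK, (hn1 _ _ _ _ hKc).2 h⟩, hr, hrq⟩)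
      obtain ⟨_, x, _, _, hx, _, h⟩ := hrE
      exact ⟨x, (pr_mem.1 hx).1, (h1 (.pr x e) hx c hc).2 ⟨r, hrG, (hn1 _ _ _ _ hKc).1 h⟩⟩
  | exS φ h1 =>
    intro e he c hc
    have hsc : ∀ d : T, scons (evl G (dec d)) (fun i => evl G (dec (c i))) =
        fun i => evl G (dec (tcons d c i)) := by
      intro d
      funext i
      cases i <;> rfl
    have htc : ∀ d : T, IsNm F d → ∀ i, IsNm F (tcons d c i) := by
      intro d hd i
      cases i with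
      | zero => exact hd
      | succ i => exact hc i
    constructor
    · rintro ⟨X, ⟨d, hd, rfl⟩, hS⟩
      rw [hsc] at hS
      obtain ⟨p, hp, hF⟩ := (h1 e he _ (htc d hd)).1 hS
      refine ⟨p, hp, ?_⟩
      intro q hq hqp
      exact ⟨q, hq, hrefl _ _, d, hd, hmono φ _ _ p (hG.sub hp) q hq hqp hF⟩
    · rintro ⟨p, hp, hF⟩
      obtain ⟨n1, hn1⟩ := fin F φ
      obtain ⟨K, hK, hKc⟩ := lst n1 c (fun i => (hc i).1)
      have hKd : ∀ d : T, ∀ i < n1, nth (.pr d K) i = tcons d c i := by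
        intro d i hi
        rw [nth_pr]
        cases i with
        | zero => rfl
        | succ i => exact hKc i (by omega)
      have hE : {r | r ∈ F.P F.κ ∧ ∃ d ∈ D (Iio F.γ), IsNm F d ∧ r ∈ F.P F.κ ∧ e ∈ D (Iio F.κ) ∧
          Tr.pr d K ∈ D (Iio F.κ) ∧ Frc F φ r e (nth (.pr d K))} ∈ F.M := by
        refine hinM _ ?_
        refine SD.exT (P := fun r d _ => IsNm F d ∧ r ∈ F.P F.κ ∧ e ∈ D (Iio F.κ) ∧
          Tr.pr d K ∈ D (Iio F.κ) ∧ Frc F φ r e (nth (.pr d K))) ?_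
        refine SD.and (hNm.sub (ST.fst ST.id)) ?_
        exact (hFr φ).sub (ST.pr (ST.snd ST.id)
          (ST.pr (ST.const (hκγ he)) (ST.pr (ST.fst ST.id) (ST.const (hκγ hK)))))
      obtain ⟨r, hrE, hrG⟩ := hdn p hp _ hE (by
        intro q hq hqp
        obtain ⟨r, hr, hrq, d, hd, h⟩ := hF q hq hqp
        exact ⟨r, ⟨hr, d, hκγ hd.1, hd, hr, he, pr_mem.2 ⟨hd.1, hK⟩,
          (hn1 _ _ _ _ (hKd d)).2 h⟩, hr, hrq⟩)
      obtain ⟨_, d, _, hd, _, _, _, h⟩ := hrE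
      refine ⟨evl G (dec d), ⟨d, hd, rfl⟩, ?_⟩
      rw [hsc]
      exact (h1 e he _ (htc d hd)).2 ⟨r, hrG, (hn1 _ _ _ _ (hKd d)).1 h⟩

end Pool.Agent.Helper17.OD.PkTRL
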