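import Pool.Agent.Helper17.OD.GoalsZV

/-! Packet VPU of project OD: pair and union. -/

namespace Pool.Agent.Helper17.OD.PkVPU

open Set Pool.Agent.Helper17.OD

theorem thm (hCVL : G_CVL) (hSOB : G_SOB) (hSBC : G_SBC) (hFAM : G_FAM) : G_VPU := by
  intro k S h
  obtain ⟨huniq, -, -, helem, hex⟩ := hCVL
  obtain ⟨hbool, hD, hsing, hfin, hsec, hprod, himg, hsep, hcoll⟩ := hSOB k S S h
  obtain ⟨hsub, -, hV⟩ := hSBC k S S h
  refine ⟨?_, ?_⟩
  · rintro x ⟨X, hX, hXx⟩ y ⟨Y, hY, hYy⟩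
    have h0 : ({(Tr.nat 0 : T)} : Set T) ∈ S := hsing _ (nat_mem _ _)
    have h1 : ({(Tr.nat 1 : T)} : Set T) ∈ S := hsing _ (nat_mem _ _)
    have hF := (hbool _ (hprod _ h0 X hX.1) _ (hprod _ h1 Y hY.1)).1
    have hI : ({(Tr.nat 0 : T)} ∪ {(Tr.nat 1 : T)} : Set T) ∈ S := (hbool _ h0 _ h1).1
    set F : Set T := {p : T | ∃ x ∈ ({(Tr.nat 0 : T)} : Set T), ∃ y ∈ X, p = .pr x y} ∪
      {p : T | ∃ x ∈ ({(Tr.nat 1 : T)} : Set T), ∃ y ∈ Y, p = .pr x y} with hFdef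
    have hs0 : {p | Tr.pr (.nat 0) p ∈ F} = X := by
      ext p
      constructor
      · rintro (⟨x, hx, y, hy, he⟩ | ⟨x, hx, y, hy, he⟩)
        · simp only [Tr.pr.injEq] at he
          rw [he.2]; exact hy
        · rw [mem_singleton_iff] at hx
          simp only [Tr.pr.injEq, hx, Tr.nat.injEq] at he
          omega
      · intro hp
        exact Or.inl ⟨_, rfl, p, hp, rfl⟩
    have hs1 : {p | Tr.pr (.nat 1) p ∈ F} = Y := by
      ext p
      constructor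
      · rintro (⟨x, hx, y, hy, he⟩ | ⟨x, hx, y, hy, he⟩)
        · rw [mem_singleton_iff] at hx
          simp only [Tr.pr.injEq, hx, Tr.nat.injEq] at he
          omega
        · simp only [Tr.pr.injEq] at he
          rw [he.2]; exact hy
      · intro hp
        exact Or.inr ⟨_, rfl, p, hp, rfl⟩
    obtain ⟨z, hz, hzz⟩ := hFAM k S h F hF _ hI (by
      rintro i (hi | hi)
      · rw [mem_singleton_iff] at hi
        rw [hi, hs0]; exact hX
      · rw [mem_singleton_iff] at hi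
        rw [hi, hs1]; exact hY)
    have : ({x, y} : Z) = z := by
      ext u
      rw [ZFSet.mem_pair, hzz]
      constructor
      · rintro (rfl | rfl)
        · exact ⟨.nat 0, Or.inl rfl, by rw [hs0]; exact hXx⟩
        · exact ⟨.nat 1, Or.inr rfl, by rw [hs1]; exact hYy⟩
      · rintro ⟨i, (hi | hi), hu⟩
        · rw [mem_singleton_iff] at hi
          rw [hi, hs0] at hu
          exact Or.inl (huniq _ _ _ _ hu hXx)
        · rw [mem_singleton_iff] at hi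
          rw [hi, hs1] at hu
          exact Or.inr (huniq _ _ _ _ hu hYy)
    rw [this]
    exact hz
  · rintro x ⟨X, hX, hXx⟩
    obtain ⟨d, hd, hXd⟩ := h.bdd X hX.1
    have hQ : SD k S S (fun e _ => ∃ c ∈ D (Iio k), Tr.pr e c ∈ X ∧ Tr.pr c (.nat 0) ∈ X) :=
      SD.exT (P := fun e c _ => Tr.pr e c ∈ X ∧ Tr.pr c (.nat 0) ∈ X)
        ((SD.mem (ST.pr (ST.snd ST.id) (ST.fst ST.id)) (SV.par hX.1)).and
          (SD.mem (ST.pr (ST.fst ST.id) (ST.nat 0)) (SV.par hX.1)))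
    have hY := SOM.sep hQ hd
    obtain ⟨z, hz, hzz⟩ := hsub X hX _ hY
    have : ZFSet.sUnion x = z := by
      ext u
      rw [ZFSet.mem_sUnion, hzz]
      constructor
      · rintro ⟨v, hv, huv⟩
        obtain ⟨c, hc0, hcv⟩ := (helem _ _ _ hXx v).1 hv
        obtain ⟨b, hbc, hbu⟩ := (helem _ _ _ hcv u).1 huv
        have hck : c ∈ D (Iio k) := D_mono (Iio_subset_Iio hd.le) (pr_mem.1 (hXd hc0)).1
        exact ⟨b, ⟨(pr_mem.1 (hXd hbc)).1, c, hck, hbc, hc0⟩, hbu⟩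
      · rintro ⟨b, ⟨-, c, -, hbc, hc0⟩, hbu⟩

        obtain ⟨v, hcv⟩ := hex _ _ _ hXx c hc0
        exact ⟨v, (helem _ _ _ hXx v).2 ⟨c, hc0, hcv⟩, (helem _ _ _ hcv u).2 ⟨b, hbc, hbu⟩⟩
    rw [this]
    exact hz

end Pool.Agent.Helper17.OD.PkVPU
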