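import Pool.Agent.Helper17.OD.GoalsZV

/-! Packet VSP of project OD: separation. -/

namespace Pool.Agent.Helper17.OD.PkVSP

open Set Pool.Agent.Helper17.OD
open Pool.Agent.Helper97.Ku (Fml IsZFC)

theorem thm (hCVL : G_CVL) (hEQM : G_EQM) (hTRF : G_TRF) (hSBC : G_SBC) : G_VSP := by
  classical
  intro k S h φ w hw a ha
  obtain ⟨huniq, -, -, helem, -⟩ := hCVL
  obtain ⟨hEqv, hCd, hEqv3⟩ := hEQM k S S h
  obtain ⟨P, hP, hPiff⟩ := hTRF k S S h φ
  obtain ⟨hsub, -, hV⟩ := hSBC k S S h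
  choose W hW using hw
  obtain ⟨A, hA, hAa⟩ := ha
  obtain ⟨d, hd, hAd⟩ := h.bdd A hA.1
  have hn0 : (Tr.nat 0 : T) ∈ D (Iio k) := nat_mem _ _
  -- the code with the parameters
  have hPs : SD k S S (fun _ σ => P (fun i => if i = 0 then σ 0 else W i)) :=
    SD.subS (θ := fun i σ => if i = 0 then σ 0 else W i) (P := fun _ σ => P σ) hP
      (fun i => by
        by_cases hi : i = 0
        · simp only [hi, if_true]; exact SV.var 0
        · simp only [hi, if_false]; exact SV.par (hW i).1.1)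
  have hE : SD k S S (fun e σ => Eqv S (rel (σ 0)) (rel A) (.nat 0) e) :=
    SD.appS2 (R := fun e X Y => Eqv S (rel X) (rel Y) e.fst e.snd) hEqv
      (ST.pr (ST.nat 0) ST.id) (SV.var 0) (SV.par hA.1)
  have hQ : SD k S S (fun e _ => Tr.pr e (.nat 0) ∈ A ∧ ∃ X' ∈ S, IsCd S X' ∧
      Eqv S (rel X') (rel A) (.nat 0) e ∧ P (fun i => if i = 0 then X' else W i)) :=
    SD.and (SD.mem (ST.pr ST.id (ST.nat 0)) (SV.par hA.1))
      (SD.exS (P := fun e X' _ => IsCd S X' ∧ Eqv S (rel X') (rel A) (.nat 0) e ∧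
        P (fun i => if i = 0 then X' else W i)) (hCd.and (hE.and hPs)))
  have hY := SOM.sep hQ hd
  obtain ⟨z, hz, hzz⟩ := hsub A hA _ hY
  refine ⟨z, hz, fun x => ?_⟩
  have hTR : ∀ X' : Set T, IsCd S X' → Cvl (rel X') x (.nat 0) →
      (P (fun i => if i = 0 then X' else W i) ↔ SatW (Vof S) φ (Function.update w 0 x)) := by
    intro X' hX' hx'
    refine hPiff _ _ fun i => ?_
    by_cases hi : i = 0
    · subst hi
      simp only [if_true, Function.update_self]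
      exact ⟨hX', hx'⟩
    · simp only [hi, if_false, ne_eq, not_false_eq_true, Function.update_of_ne]
      exact hW i
  rw [hzz]
  constructor
  · rintro ⟨b, ⟨hbd, hb0, X', -, hX', hEq, hPX⟩, hcb⟩
    have hbk : b ∈ D (Iio k) := D_mono (Iio_subset_Iio hd.le) hbd
    obtain ⟨z', hz1, hz2⟩ := (hEqv3 X' A hX' hA (.nat 0) hn0 b hbk).1 hEq
    have hzx : z' = x := huniq _ _ _ _ hz2 hcb
    rw [hzx] at hz1
    exact ⟨(helem _ _ _ hAa x).2 ⟨b, hb0, hcb⟩, (hTR X' hX' hz1).1 hPX⟩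
  · rintro ⟨hxa, hS⟩
    obtain ⟨b, hb0, hcb⟩ := (helem _ _ _ hAa x).1 hxa
    have hbd : b ∈ D (Iio d) := (pr_mem.1 (hAd hb0)).1
    have hbk : b ∈ D (Iio k) := D_mono (Iio_subset_Iio hd.le) hbd
    obtain ⟨X', hX', hx'⟩ := hV A hA b x hcb
    exact ⟨b, ⟨hbd, hb0, X', hX'.1, hX', (hEqv3 X' A hX' hA (.nat 0) hn0 b hbk).2 ⟨x, hx', hcb⟩,
      (hTR X' hX' hx').2 hS⟩, hcb⟩

end Pool.Agent.Helper17.OD.PkVSP
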